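import Mathlib

/-!
# Wrap-around translations

`T` is an action of the additive group of the real numbers on a type `Ω`, `s` a coordinate with
`s (T x z) = s z + x`, and `Y` a subset such that along every orbit that meets `Y`, the part of the
orbit with coordinates in `[0, τ)` is in `Y`, and the coordinates of the points of `Y` are in
`[0, 2 τ)`. We construct a bijection of `Y` without periodic points, which moves the points of `Y`
by the translations `T x`, `x ∈ {τ, r, r - τ, r - 2 τ}`.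
-/

set_option autoImplicit false

namespace Pool.Agent.R784.PI

/-- the hypotheses of this file -/
structure Strip (Ω : Type*) where
  T : ℝ → Ω → Ω
  s : Ω → ℝ
  Y : Set Ω
  τ : ℝ
  r : ℝ
  T_zero : ∀ z, T 0 z = z
  T_add : ∀ x y z, T (x + y) z = T x (T y z)
  s_T : ∀ x z, s (T x z) = s z + x
  r_pos : 0 < r
  r_lt : r < τ
  nonneg : ∀ z ∈ Y, 0 ≤ s z
  lt : ∀ z ∈ Y, s z < 2 * τ
  base : ∀ z ∈ Y, ∀ x, 0 ≤ s z + x → s z + x < τ → T x z ∈ Y
  irr : ∀ m k : ℤ, m * r + k * τ = 0 → m = 0 ∧ k = 0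

namespace Strip

variable {Ω : Type*} (P : Strip Ω)

theorem T_T (x y : ℝ) (z : Ω) : P.T x (P.T y z) = P.T (x + y) z := (P.T_add x y z).symm

theorem T_congr {x y : ℝ} (h : x = y) (z : Ω) : P.T x z = P.T y z := by rw [h]

/-- projection to the base -/
noncomputable def pr (z : Ω) : Ω := by
  classical exact if P.τ ≤ P.s z then P.T (-P.τ) z else z

/-- rotation of the base -/
noncomputable def rot (z : Ω) : Ω := by
  classical exact if P.s z + P.r < P.τ then P.T P.r z else P.T (P.r - P.τ) z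

/-- the inverse rotation of the base -/
noncomputable def rot' (z : Ω) : Ω := by
  classical exact if P.r ≤ P.s z then P.T (-P.r) z else P.T (P.τ - P.r) z

/-- the bijection -/
noncomputable def c (z : Ω) : Ω := by
  classical exact if P.s z < P.τ ∧ P.T P.τ z ∈ P.Y then P.T P.τ z else P.rot (P.pr z)

/-- its inverse -/
noncomputable def c' (z : Ω) : Ω := by
  classical exact if P.τ ≤ P.s z then P.T (-P.τ) z else
    (if P.T P.τ (P.rot' z) ∈ P.Y then P.T P.τ (P.rot' z) else P.rot' z)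

theorem rot_mem {z : Ω} (hz : z ∈ P.Y) (hs : P.s z < P.τ) :
    P.rot z ∈ P.Y ∧ P.s (P.rot z) < P.τ := by
  have h0 := P.nonneg z hz
  have h1 := P.r_pos
  have h2 := P.r_lt
  unfold rot
  split_ifs with h
  · exact ⟨P.base z hz _ (by linarith) h, by rw [P.s_T]; exact h⟩
  · push Not at h
    exact ⟨P.base z hz _ (by linarith) (by linarith), by rw [P.s_T]; linarith⟩

theorem rot'_mem {z : Ω} (hz : z ∈ P.Y) (hs : P.s z < P.τ) :
    P.rot' z ∈ P.Y ∧ P.s (P.rot' z) < P.τ := by
  have h0 := P.nonneg z hz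
  have h1 := P.r_pos
  have h2 := P.r_lt
  unfold rot'
  split_ifs with h
  · exact ⟨P.base z hz _ (by linarith) (by linarith), by rw [P.s_T]; linarith⟩
  · push Not at h
    exact ⟨P.base z hz _ (by linarith) (by linarith), by rw [P.s_T]; linarith⟩

theorem rot'_rot {z : Ω} (hz : z ∈ P.Y) (hs : P.s z < P.τ) : P.rot' (P.rot z) = z := by
  have h0 := P.nonneg z hz
  have h1 := P.r_pos
  have h2 := P.r_lt
  unfold rot
  split_ifs with h
  · unfold rot'
    rw [P.s_T, if_pos (by linarith), P.T_T, P.T_congr (show -P.r + P.r = 0 by ring), P.T_zero]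
  · push Not at h
    unfold rot'
    rw [P.s_T, if_neg (by push Not; linarith), P.T_T,
      P.T_congr (show P.τ - P.r + (P.r - P.τ) = 0 by ring), P.T_zero]

theorem rot_rot' {z : Ω} (hz : z ∈ P.Y) (hs : P.s z < P.τ) : P.rot (P.rot' z) = z := by
  have h0 := P.nonneg z hz
  have h1 := P.r_pos
  have h2 := P.r_lt
  unfold rot'
  split_ifs with h
  · unfold rot
    rw [P.s_T, if_pos (by linarith), P.T_T, P.T_congr (show P.r + -P.r = 0 by ring), P.T_zero]
  · push Not at h
    unfold rot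
    rw [P.s_T, if_neg (by push Not; linarith), P.T_T,
      P.T_congr (show P.r - P.τ + (P.τ - P.r) = 0 by ring), P.T_zero]

theorem pr_mem {z : Ω} (hz : z ∈ P.Y) : P.pr z ∈ P.Y ∧ P.s (P.pr z) < P.τ := by
  have h3 := P.lt z hz
  unfold pr
  split_ifs with h
  · exact ⟨P.base z hz _ (by linarith) (by linarith), by rw [P.s_T]; linarith⟩
  · push Not at h
    exact ⟨hz, h⟩

theorem c_mem {z : Ω} (hz : z ∈ P.Y) : P.c z ∈ P.Y := by
  unfold c
  split_ifs with h
  · exact h.2
  · exact (P.rot_mem (P.pr_mem hz).1 (P.pr_mem hz).2).1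

theorem c'_mem {z : Ω} (hz : z ∈ P.Y) : P.c' z ∈ P.Y := by
  unfold c'
  split_ifs with h h'
  · exact P.base z hz _ (by linarith) (by have := P.lt z hz; linarith)
  · exact h'
  · push Not at h
    exact (P.rot'_mem hz h).1

theorem c'_c {z : Ω} (hz : z ∈ P.Y) : P.c' (P.c z) = z := by
  have h0 := P.nonneg z hz
  unfold c
  split_ifs with h
  · unfold c'
    rw [P.s_T, if_pos (by linarith), P.T_T, P.T_congr (show -P.τ + P.τ = 0 by ring), P.T_zero]
  · have hp := P.pr_mem hz
    have hr := P.rot_mem hp.1 hp.2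
    unfold c'
    rw [if_neg (by push Not; exact hr.2), P.rot'_rot hp.1 hp.2]
    by_cases hs : P.τ ≤ P.s z
    · have e : P.pr z = P.T (-P.τ) z := by unfold pr; rw [if_pos hs]
      have e2 : P.T P.τ (P.pr z) = z := by
        rw [e, P.T_T, P.T_congr (show P.τ + -P.τ = 0 by ring), P.T_zero]
      rw [e2, if_pos hz]
    · have e : P.pr z = z := by unfold pr; rw [if_neg hs]
      push Not at hs
      rw [e, if_neg (fun hh => h ⟨hs, hh⟩)]

theorem c_c' {z : Ω} (hz : z ∈ P.Y) : P.c (P.c' z) = z := by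
  have h0 := P.nonneg z hz
  have h3 := P.lt z hz
  unfold c'
  split_ifs with h h'
  · unfold c
    have e : P.T P.τ (P.T (-P.τ) z) = z := by
      rw [P.T_T, P.T_congr (show P.τ + -P.τ = 0 by ring), P.T_zero]
    rw [if_pos ⟨by rw [P.s_T]; linarith, by rw [e]; exact hz⟩, e]
  · push Not at h
    have hr := P.rot'_mem hz h
    have hn := P.nonneg _ hr.1
    unfold c
    rw [if_neg (by rw [P.s_T]; intro hh; linarith [hh.1])]
    unfold pr
    rw [P.s_T, if_pos (by linarith), P.T_T, P.T_congr (show -P.τ + P.τ = 0 by ring), P.T_zero,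
      P.rot_rot' hz h]
  · push Not at h
    have hr := P.rot'_mem hz h
    unfold c
    rw [if_neg (fun hh => h' hh.2)]
    unfold pr
    rw [if_neg (by push Not; exact hr.2), P.rot_rot' hz h]

/-- the permutation of `Y` -/
noncomputable def perm : Equiv.Perm P.Y where
  toFun z := ⟨P.c z, P.c_mem z.2⟩
  invFun z := ⟨P.c' z, P.c'_mem z.2⟩
  left_inv z := Subtype.ext (P.c'_c z.2)
  right_inv z := Subtype.ext (P.c_c' z.2)

theorem perm_apply (z : P.Y) : ((P.perm z : P.Y) : Ω) = P.c z := rfl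

/-- the finitely many translations -/
noncomputable def moves : Finset ℝ := {P.τ, P.r, P.r - P.τ, P.r - 2 * P.τ}

theorem c_move (z : Ω) : ∃ x ∈ P.moves, P.c z = P.T x z := by
  unfold c
  split_ifs with h
  · exact ⟨P.τ, by simp [moves], rfl⟩
  · unfold pr
    split_ifs with h1
    · unfold rot
      split_ifs with h2
      · refine ⟨P.r - P.τ, by simp [moves], ?_⟩
        rw [P.T_T]; exact P.T_congr (by ring) _
      · refine ⟨P.r - 2 * P.τ, by simp [moves], ?_⟩
        rw [P.T_T]; exact P.T_congr (by ring) _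
    · unfold rot
      split_ifs with h2
      · exact ⟨P.r, by simp [moves], rfl⟩
      · exact ⟨P.r - P.τ, by simp [moves], rfl⟩

/-- the level -/
noncomputable def lev (z : Ω) : ℤ := by
  classical exact if P.τ ≤ P.s z then 1 else 0

/-- one step -/
theorem step {z : Ω} (hz : z ∈ P.Y) : ∃ m k : ℤ, P.c z = P.T (m * P.r + k * P.τ) z ∧
    2 * m + P.lev (P.c z) - P.lev z ≥ 1 := by
  have h0 := P.nonneg z hz
  by_cases h : P.s z < P.τ ∧ P.T P.τ z ∈ P.Y
  · have e : P.c z = P.T P.τ z := by unfold c; rw [if_pos h]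
    refine ⟨0, 1, ?_, ?_⟩
    · rw [e]; exact P.T_congr (by push_cast; ring) _
    · have l1 : P.lev (P.c z) = 1 := by
        unfold lev
        rw [e, P.s_T, if_pos (by linarith)]
      have l2 : P.lev z = 0 := by
        unfold lev
        rw [if_neg (by push Not; exact h.1)]
      rw [l1, l2]
      norm_num
  · have e : P.c z = P.rot (P.pr z) := by unfold c; rw [if_neg h]
    have hp := P.pr_mem hz
    have hr := P.rot_mem hp.1 hp.2
    have l1 : P.lev (P.c z) = 0 := by
      unfold lev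
      rw [e, if_neg (by push Not; exact hr.2)]
    have l2 : P.lev z ≤ 1 := by
      unfold lev
      split_ifs <;> norm_num
    have hrot : ∀ y : Ω, ∃ k : ℤ, P.rot y = P.T (P.r + k * P.τ) y := by
      intro y
      unfold rot
      split_ifs
      · exact ⟨0, P.T_congr (by push_cast; ring) _⟩
      · exact ⟨-1, P.T_congr (by push_cast; ring) _⟩
    have hpr : ∃ k : ℤ, P.pr z = P.T (k * P.τ) z := by
      unfold pr
      split_ifs
      · exact ⟨-1, P.T_congr (by push_cast; ring) _⟩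
      · exact ⟨0, by rw [P.T_congr (show ((0 : ℤ) : ℝ) * P.τ = 0 by push_cast; ring), P.T_zero]⟩
    obtain ⟨k1, hk1⟩ := hrot (P.pr z)
    obtain ⟨k2, hk2⟩ := hpr
    refine ⟨1, k1 + k2, ?_, ?_⟩
    · rw [e, hk1, hk2, P.T_T]; exact P.T_congr (by push_cast; ring) _
    · rw [l1]; linarith

theorem iter_mem (n : ℕ) {z : Ω} (hz : z ∈ P.Y) : P.c^[n] z ∈ P.Y := by
  induction n with
  | zero => exact hz
  | succ n ih => rw [Function.iterate_succ_apply']; exact P.c_mem ih

theorem iter (n : ℕ) {z : Ω} (hz : z ∈ P.Y) : ∃ m k : ℤ, P.c^[n] z = P.T (m * P.r + k * P.τ) z ∧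
    2 * m + P.lev (P.c^[n] z) - P.lev z ≥ n := by
  induction n with
  | zero =>
    refine ⟨0, 0, ?_, ?_⟩
    · rw [Function.iterate_zero, id, P.T_congr (show ((0 : ℤ) : ℝ) * P.r + ((0 : ℤ) : ℝ) * P.τ = 0
        by push_cast; ring), P.T_zero]
    · simp
  | succ n ih =>
    obtain ⟨m, k, h1, h2⟩ := ih
    obtain ⟨m', k', h3, h4⟩ := P.step (P.iter_mem n hz)
    refine ⟨m + m', k + k', ?_, ?_⟩
    · rw [Function.iterate_succ_apply', h3, h1, P.T_T]; exact P.T_congr (by push_cast; ring) _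
    · rw [Function.iterate_succ_apply']
      push_cast
      linarith

/-- The bijection has no periodic points; more precisely its iterates are nontrivial
translations. -/
theorem iter_ne {n : ℕ} (hn : n ≠ 0) {z : Ω} (hz : z ∈ P.Y) :
    ∃ m k : ℤ, P.c^[n] z = P.T (m * P.r + k * P.τ) z ∧ (m ≠ 0 ∨ k ≠ 0) := by
  obtain ⟨m, k, h1, h2⟩ := P.iter n hz
  refine ⟨m, k, h1, ?_⟩
  by_contra hcon
  push Not at hcon
  obtain ⟨hm, hk⟩ := hcon
  subst hm hk
  have e : P.c^[n] z = z := by
    rw [h1, P.T_congr (show ((0 : ℤ) : ℝ) * P.r + ((0 : ℤ) : ℝ) * P.τ = 0 by push_cast; ring),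
      P.T_zero]
  rw [e] at h2
  have : (n : ℤ) ≤ 0 := by linarith
  omega

theorem perm_pow (n : ℕ) (z : P.Y) : (((P.perm ^ n) z : P.Y) : Ω) = P.c^[n] z := by
  induction n with
  | zero => rfl
  | succ n ih =>
    rw [pow_succ', Equiv.Perm.mul_apply, perm_apply, ih, Function.iterate_succ_apply']

theorem perm_zpow {n : ℤ} (hn : n ≠ 0) (z : P.Y) :
    ∃ m k : ℤ, (((P.perm ^ n) z : P.Y) : Ω) = P.T (m * P.r + k * P.τ) z ∧ (m ≠ 0 ∨ k ≠ 0) := by
  obtain ⟨j, rfl | rfl⟩ := n.eq_nat_or_neg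
  · obtain ⟨m, k, h1, h2⟩ := P.iter_ne (n := j) (by omega) z.2
    exact ⟨m, k, by rw [zpow_natCast, perm_pow, h1], h2⟩
  · set y : P.Y := (P.perm ^ (-(j : ℤ))) z with hy
    have hz : z = (P.perm ^ j) y := by
      rw [hy, ← zpow_natCast, ← Equiv.Perm.mul_apply, ← zpow_add]
      simp
    obtain ⟨m, k, h1, h2⟩ := P.iter_ne (n := j) (by omega) y.2
    refine ⟨-m, -k, ?_, by omega⟩
    have h3 : (z : Ω) = P.T (m * P.r + k * P.τ) y := by
      rw [← h1, ← perm_pow, ← hz]
    rw [h3, P.T_T, P.T_congr (show ((-m : ℤ) : ℝ) * P.r + ((-k : ℤ) : ℝ) * P.τ +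
      (m * P.r + k * P.τ) = 0 by push_cast; ring), P.T_zero]

end Strip

end Pool.Agent.R784.PI
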