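import Mathlib

/-!
# Alternating products of translations along two perpendicular geodesics

`M false x = diag (e ^ x, e ^ (-x))` and `M true x = (cosh x, sinh x; sinh x, cosh x)`. For a list
`l` of pairs `(b, a)`, with alternating `b` and with nonzero `a`, the product `W τ l` of the matrices
`M b (a τ)` is different from `1` and `-1` for all but countably many `τ`.
-/

set_option autoImplicit false

open Matrix Filter Topology

namespace Pool.Agent.R784.PI

/-- the directions of the axes -/
def u : Bool → Bool → Fin 2 → ℝ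
  | false, true => ![1, 0]
  | false, false => ![0, 1]
  | true, true => ![1, 1]
  | true, false => ![1, -1]

/-- the normalizing constants -/
noncomputable def cc : Bool → ℝ
  | false => 1
  | true => 1 / 2

/-- the projections -/
noncomputable def Pp (b s : Bool) : Matrix (Fin 2) (Fin 2) ℝ := cc b • vecMulVec (u b s) (u b s)

/-- the translation matrices -/
noncomputable def M (b : Bool) (x : ℝ) : Matrix (Fin 2) (Fin 2) ℝ :=
  Real.exp x • Pp b true + Real.exp (-x) • Pp b false

theorem M_false (x : ℝ) : M false x = !![Real.exp x, 0; 0, Real.exp (-x)] := by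
  ext i j
  fin_cases i <;> fin_cases j <;> simp [M, Pp, cc, u]

theorem M_true (x : ℝ) : M true x = !![Real.cosh x, Real.sinh x; Real.sinh x, Real.cosh x] := by
  ext i j
  fin_cases i <;> fin_cases j <;>
    simp [M, Pp, cc, u, Real.cosh_eq, Real.sinh_eq] <;> ring

/-- the products -/
noncomputable def W (τ : ℝ) (l : List (Bool × ℝ)) : Matrix (Fin 2) (Fin 2) ℝ :=
  (l.map fun p => M p.1 (p.2 * τ)).prod

theorem W_cons (τ : ℝ) (p : Bool × ℝ) (l : List (Bool × ℝ)) :
    W τ (p :: l) = M p.1 (p.2 * τ) * W τ l := by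
  simp [W]

/-- the leading coefficients -/
noncomputable def L (l : List (Bool × ℝ)) : Matrix (Fin 2) (Fin 2) ℝ :=
  (l.map fun p => Pp p.1 (decide (0 < p.2))).prod

theorem L_cons (p : Bool × ℝ) (l : List (Bool × ℝ)) :
    L (p :: l) = Pp p.1 (decide (0 < p.2)) * L l := by
  simp [L]

/-- the growth exponent -/
noncomputable def sg (l : List (Bool × ℝ)) : ℝ := (l.map fun p => |p.2|).sum

theorem sg_cons (p : Bool × ℝ) (l : List (Bool × ℝ)) : sg (p :: l) = |p.2| + sg l := by
  simp [sg]

/-- alternating lists with nonzero entries -/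
def Alt (l : List (Bool × ℝ)) : Prop :=
  l.IsChain (fun p q => p.1 ≠ q.1) ∧ ∀ p ∈ l, p.2 ≠ 0

theorem tendsto_exp_mul {a : ℝ} (ha : a < 0) :
    Tendsto (fun τ : ℝ => Real.exp (a * τ)) atTop (𝓝 0) := by
  apply Real.tendsto_exp_atBot.comp
  exact tendsto_id.const_mul_atTop_of_neg ha

theorem tendsto_M (b : Bool) {a : ℝ} (ha : a ≠ 0) :
    Tendsto (fun τ : ℝ => Real.exp (-(|a| * τ)) • M b (a * τ)) atTop
      (𝓝 (Pp b (decide (0 < a)))) := by
  rcases lt_or_gt_of_ne ha with h | h
  · have e : ∀ τ : ℝ, Real.exp (-(|a| * τ)) • M b (a * τ) =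
        Real.exp (2 * a * τ) • Pp b true + Pp b false := by
      intro τ
      rw [abs_of_neg h, M, smul_add, smul_smul, smul_smul, ← Real.exp_add, ← Real.exp_add]
      have e1 : -(-a * τ) + a * τ = 2 * a * τ := by ring
      have e2 : -(-a * τ) + -(a * τ) = 0 := by ring
      rw [e1, e2, Real.exp_zero, one_smul]
    simp only [e]
    have hd : decide (0 < a) = false := by simp [h.le]
    rw [hd]
    have : Tendsto (fun τ : ℝ => Real.exp (2 * a * τ) • Pp b true + Pp b false) atTop
        (𝓝 ((0 : ℝ) • Pp b true + Pp b false)) := by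
      apply Tendsto.add _ tendsto_const_nhds
      exact (tendsto_exp_mul (by linarith)).smul_const _
    simpa using this
  · have e : ∀ τ : ℝ, Real.exp (-(|a| * τ)) • M b (a * τ) =
        Pp b true + Real.exp (-2 * a * τ) • Pp b false := by
      intro τ
      rw [abs_of_pos h, M, smul_add, smul_smul, smul_smul, ← Real.exp_add, ← Real.exp_add]
      have e1 : -(a * τ) + a * τ = 0 := by ring
      have e2 : -(a * τ) + -(a * τ) = -2 * a * τ := by ring
      rw [e1, e2, Real.exp_zero, one_smul]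
    simp only [e]
    have hd : decide (0 < a) = true := by simp [h]
    rw [hd]
    have : Tendsto (fun τ : ℝ => Pp b true + Real.exp (-2 * a * τ) • Pp b false) atTop
        (𝓝 (Pp b true + (0 : ℝ) • Pp b false)) := by
      apply Tendsto.add tendsto_const_nhds
      exact (tendsto_exp_mul (by linarith)).smul_const _
    simpa using this

theorem tendsto_W (l : List (Bool × ℝ)) (hl : ∀ p ∈ l, p.2 ≠ 0) :
    Tendsto (fun τ : ℝ => Real.exp (-(sg l * τ)) • W τ l) atTop (𝓝 (L l)) := by
  induction l with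
  | nil => simp [sg, W, L]
  | cons p l ih =>
    have h1 := ih fun q hq => hl q (List.mem_cons_of_mem _ hq)
    have h2 := tendsto_M p.1 (hl p List.mem_cons_self)
    rw [L_cons]
    refine (h2.mul h1).congr fun τ => ?_
    rw [W_cons, sg_cons, smul_mul_smul_comm, ← Real.exp_add]
    congr 2
    ring

theorem L_ne (l : List (Bool × ℝ)) (hl : l.IsChain (fun p q => p.1 ≠ q.1)) :
    ∀ p, l.head? = some p → ∃ g : Fin 2 → ℝ, g ≠ 0 ∧ ∃ c : ℝ, c ≠ 0 ∧
      L l = c • vecMulVec (u p.1 (decide (0 < p.2))) g := by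
  induction l with
  | nil => intro p hp; simp at hp
  | cons q l ih =>
    intro p hp
    simp only [List.head?_cons, Option.some.injEq] at hp
    subst hp
    have hcc : ∀ b, cc b ≠ 0 := by intro b; cases b <;> simp [cc]
    cases l with
    | nil =>
      refine ⟨u q.1 (decide (0 < q.2)), ?_, cc q.1, hcc _, ?_⟩
      · intro h
        have h0 := congrFun h 0
        have h1 := congrFun h 1
        rcases hb : q.1 <;> rcases hs : decide (0 < q.2) <;> rw [hb, hs] at h0 h1 <;>
          simp [u] at h0 h1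
      · rw [L_cons, Pp]
        simp [L]
    | cons q' l' =>
      rw [List.isChain_cons_cons] at hl
      obtain ⟨g, hg, c, hc, hL⟩ := ih hl.2 q' rfl
      have hdot : ∀ b b' s s' : Bool, b ≠ b' → u b s ⬝ᵥ u b' s' ≠ 0 := by
        intro b b' s s' hbb
        cases b <;> cases b' <;> cases s <;> cases s' <;>
          simp [u, dotProduct, Fin.sum_univ_two] at hbb ⊢
      refine ⟨g, hg, cc q.1 * (u q.1 (decide (0 < q.2)) ⬝ᵥ u q'.1 (decide (0 < q'.2))) * c,
        mul_ne_zero (mul_ne_zero (hcc _) (hdot _ _ _ _ hl.1)) hc, ?_⟩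
      rw [L_cons, hL, Pp, smul_mul_smul_comm, vecMulVec_mul_vecMulVec, vecMulVec_smul, smul_smul]
      congr 1
      ring

theorem L_ne_zero {l : List (Bool × ℝ)} (hl : Alt l) (hne : l ≠ []) : L l ≠ 0 := by
  obtain ⟨p, l', rfl⟩ := List.exists_cons_of_ne_nil hne
  obtain ⟨g, hg, c, hc, hL⟩ := L_ne _ hl.1 p rfl
  rw [hL]
  intro h
  rcases smul_eq_zero.1 h with h | h
  · exact hc h
  · have hu : u p.1 (decide (0 < p.2)) ≠ 0 := by
      intro h
      have h0 := congrFun h 0
      have h1 := congrFun h 1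
      rcases hb : p.1 <;> rcases hs : decide (0 < p.2) <;> rw [hb, hs] at h0 h1 <;>
        simp [u] at h0 h1
    obtain ⟨i, hi⟩ := Function.ne_iff.1 hu
    obtain ⟨j, hj⟩ := Function.ne_iff.1 hg
    have := congrFun (congrFun h i) j
    rw [vecMulVec_apply] at this
    exact (mul_ne_zero hi hj) this

/-- the entries are analytic -/
theorem analytic_W (l : List (Bool × ℝ)) (i j : Fin 2) :
    AnalyticOnNhd ℝ (fun τ => W τ l i j) Set.univ := by
  induction l generalizing i j with
  | nil =>
    simp only [W, List.map_nil, List.prod_nil]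
    exact analyticOnNhd_const
  | cons p l ih =>
    have e : (fun τ => W τ (p :: l) i j) = fun τ => ∑ k, M p.1 (p.2 * τ) i k * W τ l k j := by
      funext τ
      rw [W_cons, Matrix.mul_apply]
    rw [e]
    have hM : ∀ k, AnalyticOnNhd ℝ (fun τ => M p.1 (p.2 * τ) i k) Set.univ := by
      intro k
      have e2 : (fun τ => M p.1 (p.2 * τ) i k) = fun τ => Real.exp (p.2 * τ) * Pp p.1 true i k +
          Real.exp (-(p.2 * τ)) * Pp p.1 false i k := by
        funext τ
        simp [M]
      rw [e2]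
      intro x _
      fun_prop
    have : (fun τ => ∑ k, M p.1 (p.2 * τ) i k * W τ l k j) = fun τ =>
        M p.1 (p.2 * τ) i 0 * W τ l 0 j + M p.1 (p.2 * τ) i 1 * W τ l 1 j := by
      funext τ
      rw [Fin.sum_univ_two]
    rw [this]
    exact ((hM 0).mul (ih 0 j)).add ((hM 1).mul (ih 1 j))

/-- zero sets of analytic functions are countable -/
theorem countable_zeros {f : ℝ → ℝ} (hf : AnalyticOnNhd ℝ f Set.univ) (h : ∃ x, f x ≠ 0) :
    {x | f x = 0}.Countable := by
  have hcov : {x | f x = 0} ⊆ ⋃ n : ℕ, ({x | f x = 0} ∩ Set.Icc (-(n : ℝ)) n) := by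
    intro x hx
    obtain ⟨n, hn⟩ := exists_nat_ge |x|
    rw [Set.mem_iUnion]
    exact ⟨n, hx, abs_le.1 hn⟩
  refine Set.Countable.mono hcov (Set.countable_iUnion fun n => Set.Finite.countable ?_)
  by_contra hinf
  have hinf' : ({x | f x = 0} ∩ Set.Icc (-(n : ℝ)) n).Infinite := hinf
  obtain ⟨a, -, ha⟩ := hinf'.exists_accPt_of_subset_isCompact isCompact_Icc Set.inter_subset_right
  have hfreq : ∃ᶠ z in 𝓝[≠] a, f z = 0 := by
    rw [accPt_iff_frequently] at ha
    rw [frequently_nhdsWithin_iff]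
    exact ha.mono fun z hz => ⟨hz.2.1, hz.1⟩
  have := hf.eqOn_zero_of_preconnected_of_frequently_eq_zero isPreconnected_univ (Set.mem_univ a)
    hfreq
  obtain ⟨x, hx⟩ := h
  exact hx (this (Set.mem_univ x))

theorem countable_bad {l : List (Bool × ℝ)} (hl : Alt l) (hne : l ≠ []) :
    {τ | W τ l = 1 ∨ W τ l = -1}.Countable := by
  let f : ℝ → ℝ := fun τ => W τ l 0 1 * W τ l 0 1 + W τ l 1 0 * W τ l 1 0 +
    (W τ l 0 0 * W τ l 0 0 - 1) * (W τ l 0 0 * W τ l 0 0 - 1) +
    (W τ l 1 1 * W τ l 1 1 - 1) * (W τ l 1 1 * W τ l 1 1 - 1)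
  have hf : AnalyticOnNhd ℝ f Set.univ := by
    have h00 := analytic_W l 0 0
    have h01 := analytic_W l 0 1
    have h10 := analytic_W l 1 0
    have h11 := analytic_W l 1 1
    have hc : AnalyticOnNhd ℝ (fun _ : ℝ => (1 : ℝ)) Set.univ := analyticOnNhd_const
    exact (((h01.mul h01).add (h10.mul h10)).add
      (((h00.mul h00).sub hc).mul ((h00.mul h00).sub hc))).add
      (((h11.mul h11).sub hc).mul ((h11.mul h11).sub hc))
  have hnz : ∃ τ, f τ ≠ 0 := by
    by_contra hcon
    push Not at hcon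
    have hbd : ∀ τ i j, |W τ l i j| ≤ 1 := by
      intro τ i j
      have h0 : f τ = 0 := hcon τ
      have e1 : W τ l 0 1 = 0 := by
        have : W τ l 0 1 * W τ l 0 1 ≤ 0 := by
          nlinarith [mul_self_nonneg (W τ l 1 0), mul_self_nonneg (W τ l 0 0 * W τ l 0 0 - 1),
            mul_self_nonneg (W τ l 1 1 * W τ l 1 1 - 1)]
        nlinarith [mul_self_nonneg (W τ l 0 1)]
      have e2 : W τ l 1 0 = 0 := by
        have : W τ l 1 0 * W τ l 1 0 ≤ 0 := by
          nlinarith [mul_self_nonneg (W τ l 0 1), mul_self_nonneg (W τ l 0 0 * W τ l 0 0 - 1),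
            mul_self_nonneg (W τ l 1 1 * W τ l 1 1 - 1)]
        nlinarith [mul_self_nonneg (W τ l 1 0)]
      have e3 : W τ l 0 0 * W τ l 0 0 - 1 = 0 := by
        have : (W τ l 0 0 * W τ l 0 0 - 1) * (W τ l 0 0 * W τ l 0 0 - 1) ≤ 0 := by
          nlinarith [mul_self_nonneg (W τ l 0 1), mul_self_nonneg (W τ l 1 0),
            mul_self_nonneg (W τ l 1 1 * W τ l 1 1 - 1)]
        nlinarith [mul_self_nonneg (W τ l 0 0 * W τ l 0 0 - 1)]
      have e4 : W τ l 1 1 * W τ l 1 1 - 1 = 0 := by
        have : (W τ l 1 1 * W τ l 1 1 - 1) * (W τ l 1 1 * W τ l 1 1 - 1) ≤ 0 := by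
          nlinarith [mul_self_nonneg (W τ l 0 1), mul_self_nonneg (W τ l 1 0),
            mul_self_nonneg (W τ l 0 0 * W τ l 0 0 - 1)]
        nlinarith [mul_self_nonneg (W τ l 1 1 * W τ l 1 1 - 1)]
      fin_cases i <;> fin_cases j
      · show |W τ l 0 0| ≤ 1
        rw [abs_le_one_iff_mul_self_le_one]; linarith
      · show |W τ l 0 1| ≤ 1
        rw [e1]; simp
      · show |W τ l 1 0| ≤ 1
        rw [e2]; simp
      · show |W τ l 1 1| ≤ 1
        rw [abs_le_one_iff_mul_self_le_one]; linarith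
    have hsg : 0 < sg l := by
      obtain ⟨p, l', rfl⟩ := List.exists_cons_of_ne_nil hne
      rw [sg_cons]
      have h1 : 0 < |p.2| := abs_pos.2 (hl.2 p List.mem_cons_self)
      have h2 : 0 ≤ sg l' := by
        unfold sg
        apply List.sum_nonneg
        intro x hx
        obtain ⟨q, -, rfl⟩ := List.mem_map.1 hx
        exact abs_nonneg _
      linarith
    apply L_ne_zero hl hne
    ext i j
    have h1 := tendsto_W l hl.2
    have h2 : Tendsto (fun τ : ℝ => (Real.exp (-(sg l * τ)) • W τ l) i j) atTop (𝓝 (L l i j)) :=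
      tendsto_pi_nhds.1 (tendsto_pi_nhds.1 h1 i) j
    have h3 : Tendsto (fun τ : ℝ => (Real.exp (-(sg l * τ)) • W τ l) i j) atTop (𝓝 0) := by
      have h4 : Tendsto (fun τ : ℝ => Real.exp (-(sg l * τ))) atTop (𝓝 0) := by
        have := tendsto_exp_mul (a := -(sg l)) (by linarith)
        refine this.congr fun τ => ?_
        congr 1
        ring
      apply squeeze_zero_norm _ h4
      intro τ
      rw [Matrix.smul_apply, smul_eq_mul, norm_mul, Real.norm_eq_abs, Real.norm_eq_abs,
        abs_of_pos (Real.exp_pos _)]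
      calc Real.exp (-(sg l * τ)) * |W τ l i j| ≤ Real.exp (-(sg l * τ)) * 1 := by
            gcongr
            exact hbd τ i j
        _ = Real.exp (-(sg l * τ)) := mul_one _
    rw [Matrix.zero_apply]
    exact tendsto_nhds_unique h2 h3
  refine (countable_zeros hf hnz).mono ?_
  rintro τ (h | h)
  · show f τ = 0
    simp only [f, h]
    simp
  · show f τ = 0
    simp only [f, h]
    simp

end Pool.Agent.R784.PI
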