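import Mathlib
import Pool.Agent.R784.Tower
import Pool.Agent.R784.Words

/-!
# The square and the two families of translations
-/

set_option autoImplicit false

open Matrix Filter Topology UpperHalfPlane
open scoped MatrixGroups

namespace Pool.Agent.R784.PI

/-- translation along the imaginary axis -/
noncomputable def T1 (x : ℝ) : SL(2, ℝ) :=
  ⟨!![Real.exp (x / 2), 0; 0, Real.exp (-(x / 2))], by
    rw [Matrix.det_fin_two_of, ← Real.exp_add]; simp⟩

/-- rotation by a right angle about `i` -/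
noncomputable def RR : SL(2, ℝ) :=
  ⟨!![1 / Real.sqrt 2, -(1 / Real.sqrt 2); 1 / Real.sqrt 2, 1 / Real.sqrt 2], by
    rw [Matrix.det_fin_two_of]
    have : Real.sqrt 2 * Real.sqrt 2 = 2 := Real.mul_self_sqrt (by norm_num)
    have h : Real.sqrt 2 ≠ 0 := by positivity
    field_simp
    rw [pow_two, this]
    norm_num⟩

/-- the two conjugating elements -/
noncomputable def QQ (b : Bool) : SL(2, ℝ) := if b then RR else 1

/-- the translations -/
noncomputable def Tr (b : Bool) (x : ℝ) : SL(2, ℝ) := QQ b * T1 x * (QQ b)⁻¹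

theorem T1_val (x : ℝ) : (T1 x).val = !![Real.exp (x / 2), 0; 0, Real.exp (-(x / 2))] := rfl

theorem RR_val : RR.val =
    !![1 / Real.sqrt 2, -(1 / Real.sqrt 2); 1 / Real.sqrt 2, 1 / Real.sqrt 2] := rfl

theorem RR_inv_val : (RR⁻¹).val =
    !![1 / Real.sqrt 2, 1 / Real.sqrt 2; -(1 / Real.sqrt 2), 1 / Real.sqrt 2] := by
  rw [Matrix.SpecialLinearGroup.coe_inv, RR_val, Matrix.adjugate_fin_two_of, neg_neg]

theorem T1_zero : T1 0 = 1 := by
  apply Subtype.ext
  rw [T1_val]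
  ext i j
  fin_cases i <;> fin_cases j <;> simp

theorem T1_add (x y : ℝ) : T1 (x + y) = T1 x * T1 y := by
  apply Subtype.ext
  rw [Matrix.SpecialLinearGroup.coe_mul, T1_val, T1_val, T1_val, Matrix.mul_fin_two]
  have e1 : Real.exp ((x + y) / 2) = Real.exp (x / 2) * Real.exp (y / 2) := by
    rw [← Real.exp_add]; congr 1; ring
  have e2 : Real.exp (-((x + y) / 2)) = Real.exp (-(x / 2)) * Real.exp (-(y / 2)) := by
    rw [← Real.exp_add]; congr 1; ring
  rw [e1, e2]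
  simp

theorem Tr_zero (b : Bool) : Tr b 0 = 1 := by
  simp [Tr, T1_zero]

theorem Tr_add (b : Bool) (x y : ℝ) : Tr b (x + y) = Tr b x * Tr b y := by
  simp only [Tr, T1_add]
  group

theorem Tr_val (b : Bool) (x : ℝ) : (Tr b x).val = M b (x / 2) := by
  cases b
  · rw [M_false]
    have : Tr false x = T1 x := by simp [Tr, QQ]
    rw [this, T1_val]
  · rw [M_true]
    have h : Real.sqrt 2 ≠ 0 := by positivity
    have h2 : Real.sqrt 2 ^ 2 = 2 := Real.sq_sqrt (by norm_num)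
    have e : (Tr true x).val = RR.val * (T1 x).val * (RR⁻¹).val := rfl
    rw [e, RR_val, RR_inv_val, T1_val, Matrix.mul_fin_two, Matrix.mul_fin_two, Real.cosh_eq,
      Real.sinh_eq]
    have h3 : 1 / Real.sqrt 2 * (1 / Real.sqrt 2) = 1 / 2 := by
      field_simp
      rw [h2]
    generalize 1 / Real.sqrt 2 = t at h3
    ext i j
    fin_cases i <;> fin_cases j
    · simp
      linear_combination (Real.exp (x / 2) + Real.exp (-(x / 2))) * h3
    · simp
      linear_combination (Real.exp (x / 2) - Real.exp (-(x / 2))) * h3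
    · simp
      linear_combination (Real.exp (x / 2) - Real.exp (-(x / 2))) * h3
    · simp
      linear_combination (Real.exp (x / 2) + Real.exp (-(x / 2))) * h3

theorem coe_smul' (g : SL(2, ℝ)) (z : ℍ) :
    ((g • z : ℍ) : ℂ) = ((g.val 0 0 : ℝ) * z + (g.val 0 1 : ℝ)) / ((g.val 1 0 : ℝ) * z +
      (g.val 1 1 : ℝ)) := by
  rw [coe_specialLinearGroup_apply]
  rfl

theorem T1_smul_coe (x : ℝ) (z : ℍ) : ((T1 x • z : ℍ) : ℂ) = (Real.exp x : ℝ) * z := by
  rw [coe_smul', T1_val]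
  have h : Real.exp (x / 2) = Real.exp x * Real.exp (-(x / 2)) := by
    rw [← Real.exp_add]
    congr 1
    ring
  have h0 : ((Real.exp (-(x / 2)) : ℝ) : ℂ) ≠ 0 := by
    exact_mod_cast (Real.exp_pos _).ne'
  have e1 : (!![Real.exp (x / 2), 0; 0, Real.exp (-(x / 2))] : Matrix (Fin 2) (Fin 2) ℝ) 0 0 =
    Real.exp (x / 2) := rfl
  have e2 : (!![Real.exp (x / 2), 0; 0, Real.exp (-(x / 2))] : Matrix (Fin 2) (Fin 2) ℝ) 0 1 =
    0 := rfl
  have e3 : (!![Real.exp (x / 2), 0; 0, Real.exp (-(x / 2))] : Matrix (Fin 2) (Fin 2) ℝ) 1 0 =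
    0 := rfl
  have e4 : (!![Real.exp (x / 2), 0; 0, Real.exp (-(x / 2))] : Matrix (Fin 2) (Fin 2) ℝ) 1 1 =
    Real.exp (-(x / 2)) := rfl
  rw [e1, e2, e3, e4, Complex.ofReal_zero, add_zero, zero_mul, zero_add, div_eq_iff h0, h,
    Complex.ofReal_mul]
  ring

theorem T1_smul_re (x : ℝ) (z : ℍ) : (T1 x • z : ℍ).re = Real.exp x * z.re := by
  have := congrArg Complex.re (T1_smul_coe x z)
  rw [Complex.re_ofReal_mul] at this
  exact this

theorem T1_smul_im (x : ℝ) (z : ℍ) : (T1 x • z : ℍ).im = Real.exp x * z.im := by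
  have := congrArg Complex.im (T1_smul_coe x z)
  rw [Complex.im_ofReal_mul] at this
  exact this

/-- the square of the modulus -/
noncomputable def nn (z : ℍ) : ℝ := z.re ^ 2 + z.im ^ 2

theorem nn_pos (z : ℍ) : 0 < nn z := by
  have := z.im_pos
  unfold nn
  positivity

theorem nn_T1 (x : ℝ) (z : ℍ) : nn (T1 x • z) = Real.exp x ^ 2 * nn z := by
  unfold nn
  rw [T1_smul_re, T1_smul_im]
  ring

/-- the coordinate along the imaginary axis -/
noncomputable def s1 (z : ℍ) : ℝ := Real.log (nn z) / 2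

theorem s1_T1 (x : ℝ) (z : ℍ) : s1 (T1 x • z) = s1 z + x := by
  unfold s1
  rw [nn_T1, Real.log_mul (by positivity) (nn_pos z).ne', Real.log_pow, Real.log_exp]
  push_cast
  ring

/-- the squares -/
def Sq (ε : ℝ) : Set ℍ :=
  {z | 0 ≤ ε * z.re ∧ ε * z.re ≤ z.im ∧ 1 ≤ nn z ∧ nn z ≤ 1 + 2 * z.im}

/-- the inverse rotation, in coordinates -/
theorem RR_inv_smul (z : ℍ) :
    (RR⁻¹ • z : ℍ).re * ((1 - z.re) ^ 2 + z.im ^ 2) = 1 - nn z ∧
    (RR⁻¹ • z : ℍ).im * ((1 - z.re) ^ 2 + z.im ^ 2) = 2 * z.im ∧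
    nn (RR⁻¹ • z) * ((1 - z.re) ^ 2 + z.im ^ 2) = (1 + z.re) ^ 2 + z.im ^ 2 := by
  have him := z.im_pos
  have hD : 0 < (1 - z.re) ^ 2 + z.im ^ 2 := by positivity
  have hs : Real.sqrt 2 ≠ 0 := by positivity
  have hne : (1 - (z : ℂ)) ≠ 0 := by
    intro h
    have := congrArg Complex.im h
    simp at this
    linarith
  have hcoe : ((RR⁻¹ • z : ℍ) : ℂ) = (z + 1) / (1 - z) := by
    rw [coe_smul', RR_inv_val]
    have hs' : (Real.sqrt 2 : ℂ) ≠ 0 := by exact_mod_cast hs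
    have f1 : (!![1 / Real.sqrt 2, 1 / Real.sqrt 2; -(1 / Real.sqrt 2), 1 / Real.sqrt 2] :
      Matrix (Fin 2) (Fin 2) ℝ) 0 0 = 1 / Real.sqrt 2 := rfl
    have f2 : (!![1 / Real.sqrt 2, 1 / Real.sqrt 2; -(1 / Real.sqrt 2), 1 / Real.sqrt 2] :
      Matrix (Fin 2) (Fin 2) ℝ) 0 1 = 1 / Real.sqrt 2 := rfl
    have f3 : (!![1 / Real.sqrt 2, 1 / Real.sqrt 2; -(1 / Real.sqrt 2), 1 / Real.sqrt 2] :
      Matrix (Fin 2) (Fin 2) ℝ) 1 0 = -(1 / Real.sqrt 2) := rfl
    have f4 : (!![1 / Real.sqrt 2, 1 / Real.sqrt 2; -(1 / Real.sqrt 2), 1 / Real.sqrt 2] :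
      Matrix (Fin 2) (Fin 2) ℝ) 1 1 = 1 / Real.sqrt 2 := rfl
    rw [f1, f2, f3, f4]
    push_cast
    have e1 : (1 / (Real.sqrt 2 : ℂ)) * z + 1 / (Real.sqrt 2 : ℂ) = (z + 1) / Real.sqrt 2 := by ring
    have e2 : -(1 / (Real.sqrt 2 : ℂ)) * z + 1 / (Real.sqrt 2 : ℂ) = (1 - z) / Real.sqrt 2 := by
      ring
    rw [e1, e2]
    field_simp
  have hmul : ((RR⁻¹ • z : ℍ) : ℂ) * (1 - z) = z + 1 := by
    rw [hcoe]; field_simp
  set w := RR⁻¹ • z with hw
  have h1 := congrArg Complex.re hmul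
  have h2 := congrArg Complex.im hmul
  simp only [Complex.mul_re, Complex.mul_im, Complex.sub_re, Complex.sub_im, Complex.add_re,
    Complex.add_im, Complex.one_re, Complex.one_im, coe_re, coe_im, zero_sub, add_zero] at h1 h2
  unfold nn
  refine ⟨?_, ?_, ?_⟩
  · linear_combination (1 - z.re) * h1 - z.im * h2
  · linear_combination z.im * h1 + (1 - z.re) * h2
  · linear_combination ((1 - z.re) * w.re + z.im * w.im + (1 + z.re)) * h1 +
      ((1 - z.re) * w.im - z.im * w.re + z.im) * h2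

theorem mem_Sq_iff (z : ℍ) : z ∈ Sq 1 ↔ RR⁻¹ • z ∈ Sq (-1) := by
  obtain ⟨h1, h2, h3⟩ := RR_inv_smul z
  have him := z.im_pos
  set w := RR⁻¹ • z
  set D := (1 - z.re) ^ 2 + z.im ^ 2 with hD
  have hDp : 0 < D := by positivity
  have hnz : nn z = z.re ^ 2 + z.im ^ 2 := rfl
  unfold Sq
  simp only [Set.mem_ofPred_eq, one_mul, neg_mul]
  constructor
  · rintro ⟨a1, a2, a3, a4⟩
    refine ⟨?_, ?_, ?_, ?_⟩
    · have : 0 ≤ (-w.re) * D := by linarith
      exact nonneg_of_mul_nonneg_left this hDp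
    · have : (-w.re) * D ≤ w.im * D := by linarith
      exact le_of_mul_le_mul_right this hDp
    · have : 1 * D ≤ nn w * D := by rw [h3, hD]; nlinarith
      exact le_of_mul_le_mul_right this hDp
    · have : nn w * D ≤ (1 + 2 * w.im) * D := by rw [h3, add_mul, mul_assoc 2, h2, hD]; nlinarith
      exact le_of_mul_le_mul_right this hDp
  · rintro ⟨a1, a2, a3, a4⟩
    have b1 : 0 ≤ (-w.re) * D := mul_nonneg a1 hDp.le
    have b2 : (-w.re) * D ≤ w.im * D := mul_le_mul_of_nonneg_right a2 hDp.le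
    have b3 : 1 * D ≤ nn w * D := mul_le_mul_of_nonneg_right a3 hDp.le
    have b4 : nn w * D ≤ (1 + 2 * w.im) * D := mul_le_mul_of_nonneg_right a4 hDp.le
    rw [h3, hD] at b3
    rw [h3, add_mul, mul_assoc 2, h2, hD] at b4
    refine ⟨?_, ?_, ?_, ?_⟩
    · nlinarith
    · nlinarith
    · linarith
    · linarith

/-- the ratio between the rotation and the translation -/
noncomputable def ra : ℝ := Real.sqrt 2 - 1

theorem ra_pos : 0 < ra := by
  unfold ra
  have : (1 : ℝ) < Real.sqrt 2 := by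
    rw [Real.lt_sqrt (by norm_num)]; norm_num
  linarith

theorem ra_lt : ra < 1 := by
  unfold ra
  have : Real.sqrt 2 < 2 := by
    rw [Real.sqrt_lt' (by norm_num)]; norm_num
  linarith

theorem ra_irr (m k : ℤ) (h : (m : ℝ) * ra + k = 0) : m = 0 ∧ k = 0 := by
  have hirr := irrational_sqrt_two
  by_cases hm : m = 0
  · subst hm
    simp at h
    exact ⟨rfl, by exact_mod_cast h⟩
  · exfalso
    apply hirr
    refine ⟨(m - k : ℚ) / m, ?_⟩
    have hm' : (m : ℝ) ≠ 0 := by exact_mod_cast hm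
    unfold ra at h
    push_cast
    rw [div_eq_iff hm']
    linarith

/-- admissible translation lengths -/
def Adm (τ : ℝ) : Prop := Real.log (17 / 10) < τ ∧ τ < Real.log (9 / 5)

theorem Adm.pos {τ : ℝ} (h : Adm τ) : 0 < τ := by
  have : 0 < Real.log (17 / 10) := Real.log_pos (by norm_num)
  linarith [h.1]

theorem Adm.exp_lt {τ : ℝ} (h : Adm τ) : Real.exp τ < 9 / 5 := by
  have := h.2
  rwa [Real.lt_log_iff_exp_lt (by norm_num)] at this

theorem Adm.lt_exp {τ : ℝ} (h : Adm τ) : 17 / 10 < Real.exp τ := by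
  have := h.1
  rwa [Real.log_lt_iff_lt_exp (by norm_num)] at this

/-- the base condition for the squares -/
theorem Sq_base {ε : ℝ} (hε : ε * ε = 1) {τ : ℝ} (hτ : Adm τ) {z : ℍ} (hz : z ∈ Sq ε) {x : ℝ}
    (h0 : 0 ≤ s1 z + x) (h1 : s1 z + x < τ) : T1 x • z ∈ Sq ε := by
  obtain ⟨a1, a2, a3, a4⟩ := hz
  have him := z.im_pos
  have hx := Real.exp_pos x
  have hn := nn_pos z
  have hlog : Real.log (Real.exp x ^ 2 * nn z) = 2 * (s1 z + x) := by
    rw [Real.log_mul (by positivity) hn.ne', Real.log_pow, Real.log_exp]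
    unfold s1
    push_cast
    ring
  have hpos : 0 < Real.exp x ^ 2 * nn z := by positivity
  have b1 : 1 ≤ Real.exp x ^ 2 * nn z := by
    rw [← Real.log_nonneg_iff hpos, hlog]
    linarith
  have b2 : Real.exp x ^ 2 * nn z < 81 / 25 := by
    have e1 : Real.log (Real.exp x ^ 2 * nn z) < Real.log ((9 / 5) ^ 2) := by
      rw [hlog, Real.log_pow]
      push_cast
      linarith [hτ.2]
    have e2 := (Real.log_lt_log_iff hpos (by norm_num)).1 e1
    linarith
  refine ⟨?_, ?_, ?_, ?_⟩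
  · rw [T1_smul_re]
    have : ε * (Real.exp x * z.re) = Real.exp x * (ε * z.re) := by ring
    rw [this]
    positivity
  · rw [T1_smul_re, T1_smul_im]
    have : ε * (Real.exp x * z.re) = Real.exp x * (ε * z.re) := by ring
    rw [this]
    gcongr
  · rw [nn_T1]
    exact b1
  · rw [nn_T1, T1_smul_im]
    set E := Real.exp x
    set q := E ^ 2 * nn z with hq
    have hre : z.re ^ 2 ≤ z.im ^ 2 := by
      have e1 : z.re ^ 2 = (ε * z.re) ^ 2 := by rw [mul_pow]; rw [pow_two ε, hε, one_mul]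
      rw [e1]
      exact pow_le_pow_left₀ a1 a2 2
    have h3 : q ≤ 2 * (E * z.im) ^ 2 := by
      rw [hq]
      unfold nn
      nlinarith [sq_nonneg E]
    have h4 : (q - 1) ^ 2 ≤ (2 * (E * z.im)) ^ 2 := by nlinarith
    have h5 : q - 1 ≤ 2 * (E * z.im) := by
      apply le_of_sq_le_sq h4 (by positivity)
    linarith

theorem Sq_lt {ε : ℝ} {τ : ℝ} (hτ : Adm τ) {z : ℍ} (hz : z ∈ Sq ε) :
    s1 z < 2 * τ := by
  obtain ⟨a1, a2, a3, a4⟩ := hz
  have him := z.im_pos
  have hn := nn_pos z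
  have h1 : z.im ^ 2 ≤ nn z := by unfold nn; nlinarith [sq_nonneg z.re]
  have h2 : nn z < (17 / 10) ^ 4 := by
    have : (nn z - 1) ^ 2 ≤ 4 * nn z := by nlinarith
    nlinarith
  unfold s1
  have h3 : Real.log (nn z) < Real.log ((17 / 10) ^ 4) := Real.log_lt_log hn h2
  rw [Real.log_pow] at h3
  push_cast at h3
  linarith [hτ.1]

theorem Sq_nonneg {ε : ℝ} {z : ℍ} (hz : z ∈ Sq ε) : 0 ≤ s1 z := by
  unfold s1
  have := Real.log_nonneg hz.2.2.1
  linarith

/-- the square, as a subset of the hyperbolic plane -/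
def X0 : Set ℍ := Sq 1

theorem mem_X0 (b : Bool) (z : ℍ) : z ∈ X0 ↔ (QQ b)⁻¹ • z ∈ Sq (if b then -1 else 1) := by
  cases b
  · simp [QQ, X0]
  · simp only [QQ, if_true, X0]
    exact mem_Sq_iff z

/-- the strips -/
noncomputable def strip (b : Bool) (τ : ℝ) (hτ : Adm τ) : Strip ℍ where
  T x z := Tr b x • z
  s z := s1 ((QQ b)⁻¹ • z)
  Y := X0
  τ := τ
  r := ra * τ
  T_zero z := by rw [Tr_zero, one_smul]
  T_add x y z := by rw [Tr_add, mul_smul]
  s_T x z := by
    rw [← mul_smul, Tr, show (QQ b)⁻¹ * (QQ b * T1 x * (QQ b)⁻¹) = T1 x * (QQ b)⁻¹ by group,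
      mul_smul, s1_T1]
  r_pos := mul_pos ra_pos hτ.pos
  r_lt := by have := hτ.pos; have := ra_lt; nlinarith
  nonneg z hz := Sq_nonneg ((mem_X0 b z).1 hz)
  lt z hz := Sq_lt hτ ((mem_X0 b z).1 hz)
  base z hz x h0 h1 := by
    rw [mem_X0 b, ← mul_smul, Tr,
      show (QQ b)⁻¹ * (QQ b * T1 x * (QQ b)⁻¹) = T1 x * (QQ b)⁻¹ by group, mul_smul]
    exact Sq_base (by cases b <;> norm_num) hτ ((mem_X0 b z).1 hz) h0 h1
  irr m k h := by
    apply ra_irr
    have := hτ.pos.ne'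
    have h2 : ((m : ℝ) * ra + k) * τ = 0 := by linarith
    rcases mul_eq_zero.1 h2 with h3 | h3
    · exact h3
    · exact absurd h3 this

/-- the two permutations of the square -/
noncomputable def ph (b : Bool) (τ : ℝ) (hτ : Adm τ) : Equiv.Perm X0 := (strip b τ hτ).perm

end Pool.Agent.R784.PI
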