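import Mathlib
import Pool.Agent.R784.Geo

/-!
# Fixed point free actions of the free group by piecewise isometries
-/

set_option autoImplicit false

open Matrix Filter Topology UpperHalfPlane
open scoped MatrixGroups

namespace Pool.Agent.R784.PI

/-- the translation lengths, in units of `τ` -/
noncomputable def co (m k : ℤ) : ℝ := m * ra + k

theorem co_ne {m k : ℤ} (h : m ≠ 0 ∨ k ≠ 0) : co m k ≠ 0 := by
  intro h0
  have := ra_irr m k h0
  omega

/-- the lists of coefficients -/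
noncomputable def toL (l : List (Bool × ℤ × ℤ)) : List (Bool × ℝ) :=
  l.map fun p => (p.1, co p.2.1 p.2.2 / 2)

/-- the products in the group -/
noncomputable def GG (τ : ℝ) (l : List (Bool × ℤ × ℤ)) : SL(2, ℝ) :=
  (l.map fun p => Tr p.1 (co p.2.1 p.2.2 * τ)).prod

theorem GG_cons (τ : ℝ) (p : Bool × ℤ × ℤ) (l : List (Bool × ℤ × ℤ)) :
    GG τ (p :: l) = Tr p.1 (co p.2.1 p.2.2 * τ) * GG τ l := by
  simp [GG]

theorem GG_val (τ : ℝ) (l : List (Bool × ℤ × ℤ)) : (GG τ l).val = W τ (toL l) := by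
  induction l with
  | nil => simp [GG, W, toL]
  | cons p l ih =>
    rw [GG_cons, Matrix.SpecialLinearGroup.coe_mul, ih, Tr_val]
    have : toL (p :: l) = (p.1, co p.2.1 p.2.2 / 2) :: toL l := rfl
    rw [this, W_cons]
    congr 2
    ring

/-- the excluded parameters -/
def Bad : Set ℝ := {τ | ∃ l : List (Bool × ℤ × ℤ), Alt (toL l) ∧ toL l ≠ [] ∧
  (W τ (toL l) = 1 ∨ W τ (toL l) = -1)}

theorem Bad_countable : Bad.Countable := by
  have : Bad = ⋃ l : List (Bool × ℤ × ℤ), {τ | Alt (toL l) ∧ toL l ≠ [] ∧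
      (W τ (toL l) = 1 ∨ W τ (toL l) = -1)} := by
    ext τ
    simp [Bad]
  rw [this]
  refine Set.countable_iUnion fun l => ?_
  by_cases h : Alt (toL l) ∧ toL l ≠ []
  · exact (countable_bad h.1 h.2).mono fun τ hτ => hτ.2.2
  · refine Set.countable_empty.mono fun τ hτ => ?_
    exact (h ⟨hτ.1, hτ.2.1⟩).elim

/-- an element of `SL(2, ℝ)` different from `1`, `-1` has at most one fixed point -/
theorem fixed_subsingleton {g : SL(2, ℝ)} (h1 : g ≠ 1) (h2 : g ≠ -1) :
    {z : ℍ | g • z = z}.Subsingleton := by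
  have key : ∀ z : ℍ, g • z = z → 2 * g.val 1 0 * z.re + (g.val 1 1 - g.val 0 0) = 0 ∧
      g.val 1 0 * (z.re ^ 2 - z.im ^ 2) + (g.val 1 1 - g.val 0 0) * z.re - g.val 0 1 = 0 := by
    intro z hz
    have h := coe_smul' g z
    rw [hz] at h
    have hd : ((g.val 1 0 : ℝ) : ℂ) * z + (g.val 1 1 : ℝ) ≠ 0 := by
      intro h0
      rw [h0, div_zero] at h
      exact z.ne_zero h
    rw [eq_div_iff hd] at h
    have e1 := congrArg Complex.re h
    have e2 := congrArg Complex.im h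
    simp only [Complex.mul_re, Complex.mul_im, Complex.add_re, Complex.add_im, Complex.ofReal_re,
      Complex.ofReal_im, coe_re, coe_im, zero_mul, sub_zero, add_zero] at e1 e2
    have him := z.im_pos
    constructor
    · have : z.im * (2 * g.val 1 0 * z.re + (g.val 1 1 - g.val 0 0)) = 0 := by
        linear_combination e2
      rcases mul_eq_zero.1 this with h | h
      · exact absurd h him.ne'
      · exact h
    · linear_combination e1
  intro z hz w hw
  obtain ⟨a1, a2⟩ := key z hz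
  obtain ⟨b1, b2⟩ := key w hw
  by_cases hc : g.val 1 0 = 0
  · exfalso
    rw [hc] at a1 a2
    have e1 : g.val 1 1 = g.val 0 0 := by linarith
    have e2 : g.val 0 1 = 0 := by rw [e1] at a2; linarith
    have hdet := g.det_coe
    rw [Matrix.det_fin_two, e1, e2, hc] at hdet
    have e3 : (g.val 0 0 - 1) * (g.val 0 0 + 1) = 0 := by linarith
    rcases mul_eq_zero.1 e3 with h | h
    · apply h1
      apply Subtype.ext
      ext i j
      fin_cases i <;> fin_cases j
      · show g.val 0 0 = 1; linarith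
      · show g.val 0 1 = 0; exact e2
      · show g.val 1 0 = 0; exact hc
      · show g.val 1 1 = 1; linarith
    · apply h2
      apply Subtype.ext
      ext i j
      fin_cases i <;> fin_cases j
      · show g.val 0 0 = -1; linarith
      · show g.val 0 1 = -0; rw [e2]; simp
      · show g.val 1 0 = -0; rw [hc]; simp
      · show g.val 1 1 = -1; linarith
  · have hre : z.re = w.re := by
      have : 2 * g.val 1 0 * (z.re - w.re) = 0 := by linear_combination a1 - b1
      rcases mul_eq_zero.1 this with h | h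
      · exact absurd (by linarith : g.val 1 0 = 0) hc
      · linarith
    have him : z.im = w.im := by
      rw [hre] at a2
      have : g.val 1 0 * ((w.im - z.im) * (w.im + z.im)) = 0 := by linear_combination a2 - b2
      rcases mul_eq_zero.1 this with h | h
      · exact absurd h hc
      · rcases mul_eq_zero.1 h with h | h
        · linarith
        · have := z.im_pos; have := w.im_pos; linarith
    exact UpperHalfPlane.ext_re_im hre him

/-- the countable set of fixed points -/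
def DD (τ : ℝ) : Set ℍ := {z | ∃ l : List (Bool × ℤ × ℤ), GG τ l ≠ 1 ∧ GG τ l ≠ -1 ∧ GG τ l • z = z}

theorem DD_countable (τ : ℝ) : (DD τ).Countable := by
  have : DD τ = ⋃ l : List (Bool × ℤ × ℤ), {z | GG τ l ≠ 1 ∧ GG τ l ≠ -1 ∧ GG τ l • z = z} := by
    ext z
    simp [DD]
  rw [this]
  refine Set.countable_iUnion fun l => ?_
  by_cases h : GG τ l ≠ 1 ∧ GG τ l ≠ -1
  · exact ((fixed_subsingleton h.1 h.2).countable).mono fun z hz => hz.2.2
  · refine Set.countable_empty.mono fun z hz => ?_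
    exact (h ⟨hz.1, hz.2.1⟩).elim

theorem Tr_neg (b : Bool) (x : ℝ) : Tr b (-x) = (Tr b x)⁻¹ := by
  rw [eq_inv_iff_mul_eq_one, ← Tr_add, neg_add_cancel, Tr_zero]

theorem DD_invariant {τ : ℝ} (b : Bool) (m k : ℤ) {z : ℍ} (hz : z ∈ DD τ) :
    Tr b (co m k * τ) • z ∈ DD τ := by
  obtain ⟨l, h1, h2, h3⟩ := hz
  have e : GG τ ((b, m, k) :: (l ++ [(b, -m, -k)])) =
      Tr b (co m k * τ) * GG τ l * (Tr b (co m k * τ))⁻¹ := by
    rw [GG_cons]
    have : co (-m) (-k) * τ = -(co m k * τ) := by unfold co; push_cast; ring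
    simp only [GG, List.map_append, List.prod_append, List.map_cons, List.map_nil, List.prod_cons,
      List.prod_nil, mul_one, this, Tr_neg, mul_assoc]
  refine ⟨(b, m, k) :: (l ++ [(b, -m, -k)]), ?_, ?_, ?_⟩
  · rw [e]
    intro h
    apply h1
    rw [mul_inv_eq_one] at h
    have := mul_left_cancel (h.trans (mul_one _).symm)
    exact this
  · rw [e]
    intro h
    apply h2
    rw [mul_inv_eq_iff_eq_mul] at h
    have h' : Tr b (co m k * τ) * GG τ l = Tr b (co m k * τ) * (-1) := by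
      rw [h]; simp
    exact mul_left_cancel h'
  · rw [e, mul_smul, mul_smul, inv_smul_smul, h3]

theorem DD_invariant' {τ : ℝ} (b : Bool) (m k : ℤ) {z : ℍ} :
    Tr b (co m k * τ) • z ∈ DD τ ↔ z ∈ DD τ := by
  refine ⟨fun h => ?_, DD_invariant b m k⟩
  have := DD_invariant b (-m) (-k) h
  have e : co (-m) (-k) * τ = -(co m k * τ) := by unfold co; push_cast; ring
  rwa [e, Tr_neg, inv_smul_smul] at this

theorem strip_arg (b : Bool) (τ : ℝ) (hτ : Adm τ) (m k : ℤ) :
    m * (strip b τ hτ).r + k * (strip b τ hτ).τ = co m k * τ := by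
  show m * (ra * τ) + k * τ = (m * ra + k) * τ
  ring

theorem ph_zpow (b : Bool) {τ : ℝ} (hτ : Adm τ) {n : ℤ} (hn : n ≠ 0) (z : X0) :
    ∃ m k : ℤ, (((ph b τ hτ ^ n) z : X0) : ℍ) = Tr b (co m k * τ) • (z : ℍ) ∧ co m k ≠ 0 := by
  obtain ⟨m, k, h1, h2⟩ := (strip b τ hτ).perm_zpow hn z
  refine ⟨m, k, ?_, co_ne h2⟩
  rw [← strip_arg b τ hτ]
  exact h1

theorem ph_mem_DD (b : Bool) {τ : ℝ} (hτ : Adm τ) (z : X0) :
    ((ph b τ hτ z : X0) : ℍ) ∈ DD τ ↔ (z : ℍ) ∈ DD τ := by
  obtain ⟨m, k, h1, -⟩ := ph_zpow b hτ one_ne_zero z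
  rw [zpow_one] at h1
  rw [h1]
  exact DD_invariant' b m k

/-- the index set -/
def bb (i : Fin 2) : Bool := decide (i = 1)

theorem bb_inj {i j : Fin 2} (h : i ≠ j) : bb i ≠ bb j := by
  fin_cases i <;> fin_cases j <;> simp [bb] at h ⊢

/-- the action of the free product -/
noncomputable def Psi (τ : ℝ) (hτ : Adm τ) :
    Monoid.CoprodI (fun _ : Fin 2 => FreeGroup Unit) →* Equiv.Perm X0 :=
  Monoid.CoprodI.lift fun i => FreeGroup.lift fun _ => ph (bb i) τ hτ

theorem exists_zpow (g : FreeGroup Unit) : ∃ n : ℤ, g = FreeGroup.of () ^ n :=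
  ⟨FreeGroup.freeGroupUnitEquivInt g, (FreeGroup.freeGroupUnitEquivInt.symm_apply_apply g).symm⟩

/-- the letters of the free product -/
noncomputable def ofu (p : Σ _ : Fin 2, FreeGroup Unit) :
    Monoid.CoprodI (fun _ : Fin 2 => FreeGroup Unit) :=
  Monoid.CoprodI.of (M := fun _ : Fin 2 => FreeGroup Unit) (i := p.1) p.2

theorem word_action {τ : ℝ} (hτ : Adm τ) (l : List (Σ _ : Fin 2, FreeGroup Unit))
    (h1 : ∀ p ∈ l, p.2 ≠ 1) (z : X0) : ∃ l' : List (Bool × ℤ × ℤ),
      l'.map Prod.fst = l.map (fun p => bb p.1) ∧ (∀ p ∈ l', co p.2.1 p.2.2 ≠ 0) ∧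
      ((Psi τ hτ ((l.map fun p => ofu p).prod) z : X0) : ℍ) =
        GG τ l' • (z : ℍ) := by
  induction l with
  | nil => exact ⟨[], by simp, by simp, by simp [GG]⟩
  | cons p l ih =>
    obtain ⟨l', e1, e2, e3⟩ := ih fun q hq => h1 q (List.mem_cons_of_mem _ hq)
    obtain ⟨n, hn⟩ := exists_zpow p.2
    have hn0 : n ≠ 0 := by
      rintro rfl
      exact h1 p List.mem_cons_self (by rw [hn, zpow_zero])
    set y := Psi τ hτ ((l.map fun p => ofu p).prod) z with hy
    obtain ⟨m, k, f1, f2⟩ := ph_zpow (bb p.1) hτ hn0 y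
    refine ⟨(bb p.1, m, k) :: l', ?_, ?_, ?_⟩
    · simp [e1]
    · intro q hq
      rcases List.mem_cons.1 hq with rfl | hq
      · exact f2
      · exact e2 q hq
    · rw [List.map_cons, List.prod_cons, map_mul, Equiv.Perm.mul_apply, ← hy, GG_cons, mul_smul,
        ← e3, ← f1]
      have : Psi τ hτ (ofu p) = ph (bb p.1) τ hτ ^ n := by
        rw [Psi, ofu, Monoid.CoprodI.lift_of, hn, map_zpow, FreeGroup.lift_apply_of]
      rw [this]

/-- the action of the free group -/
noncomputable def Phi (τ : ℝ) (hτ : Adm τ) : FreeGroup (Fin 2) →* Equiv.Perm X0 :=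
  FreeGroup.lift fun i => ph (bb i) τ hτ

theorem Phi_eq (τ : ℝ) (hτ : Adm τ) (w : FreeGroup (Fin 2)) :
    Phi τ hτ w = Psi τ hτ (freeGroupEquivCoprodI w) := by
  have : Phi τ hτ = (Psi τ hτ).comp (@freeGroupEquivCoprodI (Fin 2)).toMonoidHom := by
    ext1 i
    simp [Phi, Psi]
  rw [this]
  rfl

theorem Phi_ne {τ : ℝ} (hτ : Adm τ) (hb : τ ∉ Bad) {w : FreeGroup (Fin 2)} (hw : w ≠ 1) {z : X0}
    (hz : (z : ℍ) ∉ DD τ) : Phi τ hτ w z ≠ z := by
  intro hfix
  rw [Phi_eq] at hfix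
  set c := freeGroupEquivCoprodI w with hc
  have hc1 : c ≠ 1 := by
    rw [hc]
    intro h
    exact hw ((MulEquiv.map_eq_one_iff _).1 h)
  set v := Monoid.CoprodI.Word.equiv c with hv
  have hvc : v.prod = c := by
    rw [hv]
    exact Monoid.CoprodI.Word.equiv.symm_apply_apply c
  obtain ⟨l', e1, e2, e3⟩ := word_action hτ v.toList v.ne_one z
  have e4 : (v.toList.map fun p => ofu p).prod = c := hvc
  rw [e4, hfix] at e3
  have hne : v.toList ≠ [] := by
    intro h
    rw [h] at e4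
    simp at e4
    exact hc1 e4.symm
  have hne' : l' ≠ [] := by
    intro h
    rw [h] at e1
    simp at e1
    exact hne e1
  have hchain : (l'.map Prod.fst).IsChain (· ≠ ·) := by
    rw [e1, List.isChain_map]
    exact v.chain_ne.imp fun a b h => bb_inj h
  have hAlt : Alt (toL l') := by
    constructor
    · rw [toL, List.isChain_map]
      rw [List.isChain_map] at hchain
      exact hchain
    · intro p hp
      obtain ⟨q, hq, rfl⟩ := List.mem_map.1 hp
      have := e2 q hq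
      simp only
      intro h0
      apply this
      linarith
  have hne'' : toL l' ≠ [] := by
    unfold toL
    simpa using hne'
  apply hz
  refine ⟨l', ?_, ?_, e3.symm⟩
  · intro h
    apply hb
    refine ⟨l', hAlt, hne'', Or.inl ?_⟩
    rw [← GG_val, h]
    rfl
  · intro h
    apply hb
    refine ⟨l', hAlt, hne'', Or.inr ?_⟩
    rw [← GG_val, h]
    rfl

/-- absorption of a set by a permutation -/
theorem absorb {α : Type*} (c : Equiv.Perm α) (D : Set α)
    (h : ∀ n : ℕ, n ≠ 0 → ∀ d ∈ D, (c ^ n) d ∉ D) :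
    ∃ e : α ≃ {z // z ∉ D}, ∀ z, (e z : α) = c z ∨ (e z : α) = z := by
  classical
  let Wd : Set α := {z | ∃ n : ℕ, ∃ d ∈ D, (c ^ n) d = z}
  have hD : ∀ z, z ∉ Wd → z ∉ D := fun z hz hD => hz ⟨0, z, hD, rfl⟩
  have hc : ∀ z, z ∈ Wd → c z ∉ D ∧ c z ∈ Wd := by
    rintro z ⟨n, d, hd, rfl⟩
    have e : c ((c ^ n) d) = (c ^ (n + 1)) d := by rw [pow_succ', Equiv.Perm.mul_apply]
    rw [e]
    exact ⟨h (n + 1) (by omega) d hd, n + 1, d, hd, rfl⟩
  have hc' : ∀ z, z ∈ Wd → z ∉ D → c.symm z ∈ Wd := by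
    rintro z ⟨n, d, hd, rfl⟩ hz
    cases n with
    | zero => exact absurd hd hz
    | succ n =>
      refine ⟨n, d, hd, ?_⟩
      rw [pow_succ', Equiv.Perm.mul_apply, Equiv.symm_apply_apply]
  refine ⟨⟨fun z => if hz : z ∈ Wd then ⟨c z, (hc z hz).1⟩ else ⟨z, hD z hz⟩,
    fun y => if (y : α) ∈ Wd then c.symm y else y, ?_, ?_⟩, ?_⟩
  · intro z
    by_cases hz : z ∈ Wd
    · simp only [dif_pos hz, if_pos (hc z hz).2, Equiv.symm_apply_apply]
    · simp only [dif_neg hz, if_neg hz]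
  · rintro ⟨y, hy⟩
    by_cases hyW : y ∈ Wd
    · simp only [if_pos hyW, dif_pos (hc' y hyW hy), Equiv.apply_symm_apply]
    · simp only [if_neg hyW, dif_neg hyW]
  · intro z
    by_cases hz : z ∈ Wd
    · left; simp [hz]
    · right; simp [hz]

/-- the excluded parameters of the absorption -/
theorem exists_absorb (D : Set ℍ) (hD : D.Countable) :
    ∃ (τ : ℝ) (hτ : Adm τ), ∀ n : ℕ, n ≠ 0 → ∀ d : X0, (d : ℍ) ∈ D →
      (((ph false τ hτ ^ n) d : X0) : ℍ) ∉ D := by
  let B : Set ℝ := ⋃ z ∈ D, ⋃ w ∈ D, ⋃ m : ℤ, ⋃ k : ℤ, {(s1 w - s1 z) / co m k}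
  have hB : B.Countable := by
    refine hD.biUnion fun z _ => hD.biUnion fun w _ => Set.countable_iUnion fun m =>
      Set.countable_iUnion fun k => Set.countable_singleton _
  have hlog : Real.log (17 / 10) < Real.log (9 / 5) := Real.log_lt_log (by norm_num) (by norm_num)
  obtain ⟨τ, hτI, hτB⟩ : ∃ τ ∈ Set.Ioo (Real.log (17 / 10)) (Real.log (9 / 5)), τ ∉ B := by
    have := (hB.dense_compl ℝ).inter_open_nonempty _ isOpen_Ioo (Set.nonempty_Ioo.2 hlog)
    obtain ⟨τ, h1, h2⟩ := this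
    exact ⟨τ, h1, h2⟩
  refine ⟨τ, hτI, fun n hn d hd hcon => ?_⟩
  obtain ⟨m, k, h1, h2⟩ := ph_zpow false hτI (n := (n : ℤ)) (by exact_mod_cast hn) d
  rw [zpow_natCast] at h1
  apply hτB
  simp only [B, Set.mem_iUnion]
  refine ⟨_, hd, _, hcon, m, k, ?_⟩
  have h3 : s1 (((ph false τ hτI ^ n) d : X0) : ℍ) = s1 (d : ℍ) + co m k * τ := by
    rw [h1]
    have : Tr false (co m k * τ) = T1 (co m k * τ) := by simp [Tr, QQ]
    rw [this, s1_T1]
  rw [Set.mem_singleton_iff, h3, eq_div_iff h2]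
  ring

theorem exists_good : ∃ (τ : ℝ) (_ : Adm τ), τ ∉ Bad := by
  have hlog : Real.log (17 / 10) < Real.log (9 / 5) := Real.log_lt_log (by norm_num) (by norm_num)
  obtain ⟨τ, h1, h2⟩ := (Bad_countable.dense_compl ℝ).inter_open_nonempty _ isOpen_Ioo
    (Set.nonempty_Ioo.2 hlog)
  exact ⟨τ, h1, h2⟩

theorem X0_bounded : Bornology.IsBounded X0 := by
  rw [Metric.isBounded_iff_subset_closedBall UpperHalfPlane.I]
  refine ⟨10 / Real.sqrt (1 / 2), fun z hz => ?_⟩
  obtain ⟨a1, a2, a3, a4⟩ := hz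
  rw [one_mul] at a1 a2
  have him := z.im_pos
  have hn : nn z = z.re ^ 2 + z.im ^ 2 := rfl
  have him3 : z.im ≤ 3 := by nlinarith
  have him2 : 1 / 2 ≤ z.im := by nlinarith
  rw [Metric.mem_closedBall]
  refine (dist_le_dist_coe_div_sqrt z UpperHalfPlane.I).trans ?_
  have h1 : dist (z : ℂ) (UpperHalfPlane.I : ℍ) ≤ 10 := by
    rw [dist_eq_norm]
    refine (Complex.norm_le_abs_re_add_abs_im _).trans ?_
    have e1 : |((z : ℂ) - (UpperHalfPlane.I : ℍ)).re| ≤ 5 := by
      rw [abs_le]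
      simp
      constructor <;> linarith
    have e2 : |((z : ℂ) - (UpperHalfPlane.I : ℍ)).im| ≤ 5 := by
      rw [abs_le]
      simp
      constructor <;> linarith
    linarith
  have h2 : Real.sqrt (1 / 2) ≤ Real.sqrt (z.im * UpperHalfPlane.I.im) := by
    apply Real.sqrt_le_sqrt
    simp
    linarith
  have h3 : 0 < Real.sqrt (1 / 2) := by positivity
  gcongr

theorem X0_interior : (interior X0).Nonempty := by
  refine ⟨⟨⟨1 / 2, 6 / 5⟩, by norm_num⟩, ?_⟩
  rw [mem_interior]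
  refine ⟨{z : ℍ | 0 < z.re ∧ z.re < z.im ∧ 1 < nn z ∧ nn z < 1 + 2 * z.im}, ?_, ?_, ?_⟩
  · rintro z ⟨h1, h2, h3, h4⟩
    exact ⟨by linarith, by linarith, h3.le, h4.le⟩
  · have c1 : Continuous fun z : ℍ => z.re := UpperHalfPlane.continuous_re
    have c2 : Continuous fun z : ℍ => z.im := UpperHalfPlane.continuous_im
    have c3 : Continuous fun z : ℍ => nn z := by unfold nn; fun_prop
    have o1 : IsOpen {z : ℍ | 0 < z.re} := isOpen_lt continuous_const c1
    have o2 : IsOpen {z : ℍ | z.re < z.im} := isOpen_lt c1 c2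
    have o3 : IsOpen {z : ℍ | 1 < nn z} := isOpen_lt continuous_const c3
    have o4 : IsOpen {z : ℍ | nn z < 1 + 2 * z.im} := isOpen_lt c3 (by fun_prop)
    exact o1.inter (o2.inter (o3.inter o4))
  · refine ⟨?_, ?_, ?_, ?_⟩
    · show (0 : ℝ) < 1 / 2; norm_num
    · show (1 / 2 : ℝ) < 6 / 5; norm_num
    · show (1 : ℝ) < (1 / 2) ^ 2 + (6 / 5) ^ 2; norm_num
    · show (1 / 2 : ℝ) ^ 2 + (6 / 5) ^ 2 < 1 + 2 * (6 / 5); norm_num

end Pool.Agent.R784.PI
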